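import Mathlib

set_option autoImplicit false

namespace Pool.Agent.Lib.P9fb79a

/-- Index set of the middle layer. -/
abbrev Gam : Type := ℕ × (ℕ → ℕ)

/-- Members of the filter generated by the cones in `ℕ × (ℕ → ℕ)`. -/
def Big (V : Set Gam) : Prop :=
  ∃ k₀ : ℕ, ∃ h : ℕ → ℕ, ∀ k g, k₀ ≤ k → (∀ t, h t ≤ g t) → (k, g) ∈ V

theorem Big.mono {V W : Set Gam} (hV : Big V) (h : V ⊆ W) : Big W := by
  obtain ⟨k₀, h₀, H⟩ := hV
  exact ⟨k₀, h₀, fun k g hk hg => h (H k g hk hg)⟩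

theorem Big.inter {V W : Set Gam} (hV : Big V) (hW : Big W) : Big (V ∩ W) := by
  obtain ⟨k₀, h₀, H⟩ := hV
  obtain ⟨k₁, h₁, H'⟩ := hW
  refine ⟨max k₀ k₁, fun t => max (h₀ t) (h₁ t), fun k g hk hg => ⟨?_, ?_⟩⟩
  · exact H k g (le_trans (le_max_left _ _) hk) fun t => le_trans (le_max_left _ _) (hg t)
  · exact H' k g (le_trans (le_max_right _ _) hk) fun t => le_trans (le_max_right _ _) (hg t)

theorem big_univ : Big Set.univ := ⟨0, fun _ => 0, fun _ _ _ _ => trivial⟩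

theorem Big.nonempty {V : Set Gam} (hV : Big V) : V.Nonempty := by
  obtain ⟨k₀, h₀, H⟩ := hV
  exact ⟨(k₀, h₀), H k₀ h₀ le_rfl fun _ => le_rfl⟩

/-- Every infinite set contains an infinite subset whose complement is big. -/
theorem exists_small {M : Set Gam} (hM : M.Infinite) :
    ∃ M' ⊆ M, M'.Infinite ∧ Big M'ᶜ := by
  classical
  let a : ℕ ↪ M := hM.natEmbedding
  refine ⟨Set.range fun i => (a i : Gam), ?_, ?_, ?_⟩
  · rintro _ ⟨i, rfl⟩
    exact (a i).2
  · exact Set.infinite_range_of_injective fun i j hij => a.injective (Subtype.ext hij)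
  · refine ⟨0, fun t => (Finset.range (t + 1)).sup (fun i => (a i : Gam).2 t) + 1, ?_⟩
    rintro k g - hg ⟨i, hi⟩
    have h1 : (Finset.range (i + 1)).sup (fun j => (a j : Gam).2 i) + 1 ≤ g i := hg i
    have h2 : (a i : Gam).2 i ≤ (Finset.range (i + 1)).sup (fun j => (a j : Gam).2 i) :=
      Finset.le_sup (f := fun j => (a j : Gam).2 i) (Finset.mem_range.2 (Nat.lt_succ_self i))
    have h3 : (a i : Gam).2 = g := by
      have := congrArg Prod.snd hi
      simpa using this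
    rw [h3] at h2
    omega

theorem big_compl_singleton (a : Gam) : Big ({a}ᶜ : Set Gam) := by
  refine ⟨0, fun t => a.2 t + 1, ?_⟩
  rintro k g - hg h
  have h1 : a.2 0 + 1 ≤ g 0 := hg 0
  have h2 : g = a.2 := by
    have := congrArg Prod.snd (Set.mem_singleton_iff.1 h)
    simpa using this
  rw [h2] at h1
  omega

/-! ### The test space -/

/-- The topology on the test space `Finset Gam`: the upper Vietoris topology, with the empty
set isolated on top. -/
@[reducible] def topY : TopologicalSpace (Finset Gam) where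
  IsOpen 𝒰 := ∀ G : Finset Gam, G ∈ 𝒰 → G.Nonempty →
    ∃ V : Set Gam, Big V ∧ (∀ a ∈ G, a ∈ V) ∧
      ∀ G' : Finset Gam, (∀ a ∈ G', a ∈ V) → G' ∈ 𝒰
  isOpen_univ := fun _ _ _ => ⟨Set.univ, big_univ, fun _ _ => trivial, fun _ _ => trivial⟩
  isOpen_inter := by
    intro 𝒰 𝒱 hU hV G hG hne
    obtain ⟨V, hVb, hGV, hV'⟩ := hU G hG.1 hne
    obtain ⟨W, hWb, hGW, hW'⟩ := hV G hG.2 hne
    exact ⟨V ∩ W, hVb.inter hWb, fun a ha => ⟨hGV a ha, hGW a ha⟩,
      fun G' hG' => ⟨hV' G' fun a ha => (hG' a ha).1, hW' G' fun a ha => (hG' a ha).2⟩⟩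
  isOpen_sUnion := by
    intro S hS G hG hne
    obtain ⟨𝒰, hU, hGU⟩ := hG
    obtain ⟨V, hVb, hGV, hV'⟩ := hS 𝒰 hU G hGU hne
    exact ⟨V, hVb, hGV, fun G' hG' => ⟨𝒰, hU, hV' G' hG'⟩⟩

/-- Basic open sets of the test space. -/
def boxY (V : Set Gam) : Set (Finset Gam) := {G | ∀ a ∈ G, a ∈ V}

theorem isOpen_boxY {V : Set Gam} (hV : Big V) : @IsOpen _ topY (boxY V) :=
  fun _ hG _ => ⟨V, hV, hG, fun _ h => h⟩

theorem isOpen_empty : @IsOpen _ topY ({∅} : Set (Finset Gam)) := by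
  intro G hG hne
  rw [Set.mem_singleton_iff.1 hG] at hne
  exact absurd hne (by simp)

theorem t0Y : @T0Space (Finset Gam) topY := by
  let _ := topY
  refine ⟨fun G G' h => ?_⟩
  have key : ∀ A B : Finset Gam, Inseparable A B → A ⊆ B := by
    intro A B hAB a ha
    by_contra hb
    have h1 : B ∈ boxY {a}ᶜ := fun b hb' h => hb (Set.mem_singleton_iff.1 h ▸ hb')
    have h2 : A ∈ boxY {a}ᶜ :=
      (hAB.mem_open_iff (isOpen_boxY (big_compl_singleton a))).2 h1
    exact h2 a ha rfl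
  exact Finset.Subset.antisymm (key _ _ h) (key _ _ h.symm)

/-- All compact subsets of the test space are finite. -/
theorem finite_of_isCompact {C : Set (Finset Gam)} (hC : @IsCompact _ topY C) : C.Finite := by
  classical
  let _ := topY
  set M : Set Gam := {a | ∃ G ∈ C, a ∈ G} with hMdef
  have hM : M.Finite := by
    by_contra hinf
    obtain ⟨M', hM'M, hM'inf, hbig⟩ := exists_small hinf
    have hcov : C ⊆ ⋃ G : Finset Gam, boxY (M'ᶜ ∪ (G : Set Gam)) := by
      intro G _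
      exact Set.mem_iUnion.2 ⟨G, fun a ha => Or.inr ha⟩
    obtain ⟨t, ht⟩ := hC.elim_finite_subcover _
      (fun G => isOpen_boxY (hbig.mono (Set.subset_union_left))) hcov
    apply hM'inf
    refine (Finset.finite_toSet (t.biUnion id)).subset ?_
    intro a ha
    obtain ⟨G, hG, haG⟩ := hM'M ha
    obtain ⟨H, hH, hGH⟩ := Set.mem_iUnion₂.1 (ht hG)
    rcases hGH a haG with h | h
    · exact absurd ha h
    · simp only [Finset.coe_biUnion, Set.mem_iUnion]
      exact ⟨H, hH, h⟩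
  refine (Finset.finite_toSet (hM.toFinset.powerset)).subset ?_
  intro G hG
  rw [Finset.mem_coe, Finset.mem_powerset]
  intro a ha
  rw [Set.Finite.mem_toFinset]
  exact ⟨G, hG, ha⟩

/-- Well-filteredness (with the `T0` axiom), for an arbitrary topology. -/
def WFp (Y : Type) (s : TopologicalSpace Y) : Prop :=
  (@T0Space Y s ∧
        ∀ (𝒦 : Set (Set Y)) (U : Set Y),
          (∀ K ∈ 𝒦, @IsCompact Y s K ∧
            ∀ y : Y, (∀ V : Set Y, @IsOpen Y s V → K ⊆ V → y ∈ V) → y ∈ K) →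
          𝒦.Nonempty →
          (∀ K₁ ∈ 𝒦, ∀ K₂ ∈ 𝒦, ∃ K₃ ∈ 𝒦, K₃ ⊆ K₁ ∩ K₂) →
          @IsOpen Y s U → ⋂₀ 𝒦 ⊆ U → ∃ K ∈ 𝒦, K ⊆ U)

theorem wfY : WFp (Finset Gam) topY := by
  refine ⟨t0Y, ?_⟩
  intro 𝒦 U h𝒦 hne hfil _ hU
  have hfin : ∀ K ∈ 𝒦, K.Finite := fun K hK => finite_of_isCompact (h𝒦 K hK).1
  obtain ⟨K, hK, hmin⟩ : ∃ K ∈ 𝒦, ∀ K' ∈ 𝒦, K.ncard ≤ K'.ncard := by
    obtain ⟨K, hK, hmin⟩ := exists_minimalFor_of_wellFoundedLT (· ∈ 𝒦) Set.ncard hne
    refine ⟨K, hK, fun K' hK' => ?_⟩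
    rcases le_total K.ncard K'.ncard with h | h
    · exact h
    · exact hmin hK' h
  refine ⟨K, hK, fun y hy => hU ?_⟩
  intro K' hK'
  obtain ⟨K₃, hK₃, hsub⟩ := hfil K hK K' hK'
  have h1 : K₃ = K := Set.eq_of_subset_of_ncard_le (fun z hz => (hsub hz).1) (hmin K₃ hK₃)
    (hfin K hK)
  rw [← h1] at hy
  exact (hsub hy).2


/-- In a well-filtered space, the closure of a nonempty directed set is a point closure. -/
theorem WFp.directed {Y : Type} {s : TopologicalSpace Y} (h : WFp Y s) {C : Set Y}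
    (hne : C.Nonempty)
    (hdir : ∀ a ∈ C, ∀ b ∈ C, ∃ c ∈ C, a ∈ closure {c} ∧ b ∈ closure {c}) :
    ∃ y : Y, closure C = closure {y} := by
  obtain ⟨_, hwf⟩ := h
  by_contra hcon
  push Not at hcon
  have hK : ∀ c : Y, IsCompact {z | c ∈ closure {z}} ∧
      ∀ y : Y, (∀ V : Set Y, IsOpen V → {z | c ∈ closure {z}} ⊆ V → y ∈ V) →
        y ∈ {z | c ∈ closure {z}} := by
    intro c
    have hsub : ∀ V : Set Y, IsOpen V → c ∈ V → {z | c ∈ closure {z}} ⊆ V := by
      intro V hV hc z hz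
      obtain ⟨w, hw, hw'⟩ := mem_closure_iff.1 hz V hV hc
      rwa [Set.mem_singleton_iff.1 hw'] at hw
    refine ⟨?_, ?_⟩
    · refine isCompact_of_finite_subcover ?_
      intro ι U hU hcov
      obtain ⟨i, hi⟩ := Set.mem_iUnion.1 (hcov (show c ∈ closure {c} from subset_closure rfl))
      exact ⟨{i}, fun z hz => Set.mem_iUnion₂.2 ⟨i, by simp, hsub _ (hU i) hi hz⟩⟩
    · intro y hy
      refine mem_closure_iff.2 fun V hV hc => ⟨y, hy V hV (hsub V hV hc), rfl⟩
  obtain ⟨K, ⟨c, hc, rfl⟩, hKU⟩ := hwf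
    ((fun c => {z | c ∈ closure {z}}) '' C) (closure C)ᶜ
    (by rintro _ ⟨c, _, rfl⟩; exact hK c)
    (hne.image _)
    (by
      rintro _ ⟨a, ha, rfl⟩ _ ⟨b, hb, rfl⟩
      obtain ⟨c, hc, hac, hbc⟩ := hdir a ha b hb
      refine ⟨_, ⟨c, hc, rfl⟩, fun z hz => ⟨?_, ?_⟩⟩
      · have : closure {c} ⊆ closure {z} :=
          closure_minimal (Set.singleton_subset_iff.2 hz) isClosed_closure
        exact this hac
      · have : closure {c} ⊆ closure {z} :=
          closure_minimal (Set.singleton_subset_iff.2 hz) isClosed_closure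
        exact this hbc)
    isClosed_closure.isOpen_compl
    (by
      intro y hy hyC
      apply hcon y
      apply Set.Subset.antisymm
      · refine closure_minimal ?_ isClosed_closure
        intro c hc
        exact Set.mem_sInter.1 hy _ ⟨c, hc, rfl⟩
      · exact closure_minimal (Set.singleton_subset_iff.2 hyC) isClosed_closure)
  exact hKU (show c ∈ closure {c} from subset_closure rfl) (subset_closure hc)

/-! ### The counterexample space -/

/-- Points of the counterexample space. -/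
inductive Pt : Type
  | p : Pt
  | x : Gam → Pt
  | d : ℕ → ℕ → Pt

/-- The topology of the counterexample space. -/
@[reducible] def topX : TopologicalSpace Pt where
  IsOpen U :=
    (∀ a : Gam, ∀ t n, Pt.x a ∈ U → a.1 ≤ t → a.2 t ≤ n → Pt.d t n ∈ U) ∧
    (∀ t n m, Pt.d t n ∈ U → n ≤ m → Pt.d t m ∈ U) ∧
    (Pt.p ∈ U → Big {a | Pt.x a ∈ U})
  isOpen_univ := ⟨fun _ _ _ _ _ _ => trivial, fun _ _ _ _ _ => trivial, fun _ => big_univ⟩
  isOpen_inter := by
    rintro U V ⟨h1, h2, h3⟩ ⟨k1, k2, k3⟩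
    refine ⟨fun a t n ha hk hg => ⟨h1 a t n ha.1 hk hg, k1 a t n ha.2 hk hg⟩,
      fun t n m ha hm => ⟨h2 t n m ha.1 hm, k2 t n m ha.2 hm⟩, fun hp => ?_⟩
    exact ((h3 hp.1).inter (k3 hp.2)).mono fun a ha => ha
  isOpen_sUnion := by
    intro S hS
    refine ⟨?_, ?_, ?_⟩
    · rintro a t n ⟨U, hU, ha⟩ hk hg
      exact ⟨U, hU, (hS U hU).1 a t n ha hk hg⟩
    · rintro t n m ⟨U, hU, ha⟩ hm
      exact ⟨U, hU, (hS U hU).2.1 t n m ha hm⟩
    · rintro ⟨U, hU, hp⟩
      exact ((hS U hU).2.2 hp).mono fun a ha => ⟨U, hU, ha⟩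

attribute [local instance] topX

theorem isOpen_iff (U : Set Pt) : IsOpen U ↔
    (∀ a : Gam, ∀ t n, Pt.x a ∈ U → a.1 ≤ t → a.2 t ≤ n → Pt.d t n ∈ U) ∧
    (∀ t n m, Pt.d t n ∈ U → n ≤ m → Pt.d t m ∈ U) ∧
    (Pt.p ∈ U → Big {a | Pt.x a ∈ U}) := Iff.rfl

/-- The upper set of the point `d t n`. -/
def upD (t n : ℕ) : Set Pt := {z | ∃ m, n ≤ m ∧ z = Pt.d t m}

/-- The upper set of the point `x a`. -/
def upX (a : Gam) : Set Pt := {z | z = Pt.x a ∨ ∃ t m, a.1 ≤ t ∧ a.2 t ≤ m ∧ z = Pt.d t m}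

theorem isOpen_upD (t n : ℕ) : IsOpen (upD t n) := by
  refine (isOpen_iff _).2 ⟨?_, ?_, ?_⟩
  · rintro a s m ⟨_, _, h⟩; cases h
  · rintro s m m' ⟨l, hl, h⟩ hm
    cases h
    exact ⟨m', le_trans hl hm, rfl⟩
  · rintro ⟨_, _, h⟩; cases h

theorem isOpen_upX (a : Gam) : IsOpen (upX a) := by
  refine (isOpen_iff _).2 ⟨?_, ?_, ?_⟩
  · rintro b s m (h | ⟨_, _, _, _, h⟩) hs hm
    · cases h
      exact Or.inr ⟨s, m, hs, hm, rfl⟩
    · cases h
  · rintro s m m' (h | ⟨_, l, hs, hl, h⟩) hm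
    · cases h
    · cases h
      exact Or.inr ⟨s, m', hs, le_trans hl hm, rfl⟩
  · rintro (h | ⟨_, _, _, _, h⟩) <;> cases h

/-- The open neighbourhoods of `p`: `p`, the points `x a` for `a ∈ V`, and the points above. -/
def nb (V : Set Gam) : Set Pt :=
  {z | z = Pt.p ∨ (∃ a ∈ V, z = Pt.x a) ∨ ∃ a ∈ V, ∃ t m, a.1 ≤ t ∧ a.2 t ≤ m ∧ z = Pt.d t m}

theorem isOpen_nb {V : Set Gam} (hV : Big V) : IsOpen (nb V) := by
  refine (isOpen_iff _).2 ⟨?_, ?_, ?_⟩
  · rintro b s m (h | ⟨a, ha, h⟩ | ⟨_, _, _, _, _, _, h⟩) hs hm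
    · cases h
    · cases h
      exact Or.inr (Or.inr ⟨_, ha, s, m, hs, hm, rfl⟩)
    · cases h
  · rintro s m m' (h | ⟨a, ha, h⟩ | ⟨a, ha, _, l, hs, hl, h⟩) hm
    · cases h
    · cases h
    · cases h
      exact Or.inr (Or.inr ⟨_, ha, s, m', hs, le_trans hl hm, rfl⟩)
  · intro _
    exact hV.mono fun a ha => Or.inr (Or.inl ⟨a, ha, rfl⟩)

theorem mem_nb_x {V : Set Gam} {a : Gam} : Pt.x a ∈ nb V ↔ a ∈ V := by
  constructor
  · rintro (h | ⟨b, hb, h⟩ | ⟨_, _, _, _, _, _, h⟩)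
    · cases h
    · cases h; exact hb
    · cases h
  · intro h
    exact Or.inr (Or.inl ⟨a, h, rfl⟩)

/-- The complement of the closure of the tower `D t`. -/
def coD (t : ℕ) : Set Pt := {z | z = Pt.p ∨ (∃ a : Gam, t < a.1 ∧ z = Pt.x a) ∨
  ∃ s m, s ≠ t ∧ z = Pt.d s m}

theorem isOpen_coD (t : ℕ) : IsOpen (coD t) := by
  refine (isOpen_iff _).2 ⟨?_, ?_, ?_⟩
  · rintro b s m (h | ⟨a, ha, h⟩ | ⟨_, _, _, h⟩) hs hm
    · cases h
    · cases h
      exact Or.inr (Or.inr ⟨s, m, by omega, rfl⟩)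
    · cases h
  · rintro s m m' (h | ⟨a, ha, h⟩ | ⟨_, _, hs, h⟩) hm
    · cases h
    · cases h
    · cases h
      exact Or.inr (Or.inr ⟨s, m', hs, rfl⟩)
  · intro _
    refine ⟨t + 1, fun _ => 0, fun k g hk _ => ?_⟩
    exact Or.inr (Or.inl ⟨(k, g), by simpa using hk, rfl⟩)

/-- Everything except `x a`. -/
theorem isOpen_compl_x (a : Gam) : IsOpen ({Pt.x a}ᶜ : Set Pt) := by
  refine (isOpen_iff _).2 ⟨?_, ?_, ?_⟩
  · rintro b s m _ _ _ h; cases h
  · rintro s m m' _ _ h; cases h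
  · intro _
    refine (big_compl_singleton a).mono ?_
    intro b hb h
    cases h
    exact hb rfl

theorem isOpen_compl_p : IsOpen ({Pt.p}ᶜ : Set Pt) := by
  refine (isOpen_iff _).2 ⟨?_, ?_, ?_⟩
  · rintro b s m _ _ _ h; cases h
  · rintro s m m' _ _ h; cases h
  · intro h
    exact absurd rfl h

theorem t0X : T0Space Pt := by
  refine ⟨fun z w h => ?_⟩
  have hO : ∀ U : Set Pt, IsOpen U → (z ∈ U ↔ w ∈ U) := fun U hU => h.mem_open_iff hU
  rcases z with _ | a | ⟨t, n⟩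
  · by_contra hne
    exact ((hO _ isOpen_compl_p).2 (fun h => hne h.symm)) rfl
  · by_contra hne
    exact ((hO _ (isOpen_compl_x a)).2 (fun h => hne h.symm)) rfl
  · have h1 : w ∈ upD t n := (hO _ (isOpen_upD t n)).1 ⟨n, le_rfl, rfl⟩
    obtain ⟨m, hm, rfl⟩ := h1
    have h2 := (hO _ (isOpen_upD t m)).2 ⟨m, le_rfl, rfl⟩
    obtain ⟨l, hl, h3⟩ := h2
    cases h3
    rw [le_antisymm hl hm]

/-- The closure of the image only depends on a dense part. -/
theorem closure_image_of_dense {Z Y : Type} [TopologicalSpace Z] [TopologicalSpace Y]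
    {f : Z → Y} (hf : Continuous f) {A B : Set Z} (hBA : B ⊆ A) (hAB : A ⊆ closure B) :
    closure (f '' A) = closure (f '' B) := by
  apply Set.Subset.antisymm
  · refine closure_minimal ?_ isClosed_closure
    exact (Set.image_mono hAB).trans (image_closure_subset_closure_image hf)
  · exact closure_mono (Set.image_mono hBA)

theorem subset_closure_inter {Z : Type} [TopologicalSpace Z] {A U : Set Z}
    (hA : IsIrreducible A) (hU : IsOpen U) (hne : (A ∩ U).Nonempty) :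
    A ⊆ closure (A ∩ U) := by
  intro a ha
  refine mem_closure_iff.2 fun V hV haV => ?_
  obtain ⟨z, hzA, hzU, hzV⟩ := hA.2 U V hU hV hne ⟨a, ha, haV⟩
  exact ⟨z, hzV, hzA, hzU⟩

/-- The space is well-filtered determined. -/
theorem wfdX {A : Set Pt} (hA : IsIrreducible A) (Y : Type) (s : TopologicalSpace Y)
    (f : Pt → Y) (hY : WFp Y s) (hf : Continuous f) :
    ∃ y : Y, closure (f '' A) = closure {y} := by
  by_cases hD : ∃ t n, Pt.d t n ∈ A
  · obtain ⟨t, n, htn⟩ := hD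
    have hne : (A ∩ upD t 0).Nonempty := ⟨_, htn, n, Nat.zero_le _, rfl⟩
    rw [closure_image_of_dense hf Set.inter_subset_left
      (subset_closure_inter hA (isOpen_upD t 0) hne)]
    apply hY.directed (hne.image f)
    have hle : ∀ n m, n ≤ m → f (Pt.d t n) ∈ closure {f (Pt.d t m)} := by
      intro n m hnm
      have h1 : Pt.d t n ∈ closure {Pt.d t m} :=
        mem_closure_iff.2 fun V hV hn => ⟨_, ((isOpen_iff V).1 hV).2.1 t n m hn hnm, rfl⟩
      have h2 := image_closure_subset_closure_image hf ⟨_, h1, rfl⟩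
      rwa [Set.image_singleton] at h2
    rintro _ ⟨_, ⟨hA1, n1, _, rfl⟩, rfl⟩ _ ⟨_, ⟨hA2, n2, _, rfl⟩, rfl⟩
    rcases le_total n1 n2 with h | h
    · exact ⟨_, ⟨_, ⟨hA2, n2, Nat.zero_le _, rfl⟩, rfl⟩, hle _ _ h, subset_closure rfl⟩
    · exact ⟨_, ⟨_, ⟨hA1, n1, Nat.zero_le _, rfl⟩, rfl⟩, subset_closure rfl, hle _ _ h⟩
  · push Not at hD
    by_cases hX : ∃ a, Pt.x a ∈ A
    · obtain ⟨a, ha⟩ := hX
      have hint : A ∩ upX a = {Pt.x a} := by
        ext z
        constructor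
        · rintro ⟨hzA, h | ⟨t, m, _, _, h⟩⟩
          · exact h
          · rw [h] at hzA
            exact absurd hzA (hD t m)
        · intro h
          rw [Set.mem_singleton_iff.1 h]
          exact ⟨ha, Or.inl rfl⟩
      have hne : (A ∩ upX a).Nonempty := by rw [hint]; exact ⟨_, rfl⟩
      rw [closure_image_of_dense hf Set.inter_subset_left
        (subset_closure_inter hA (isOpen_upX a) hne), hint, Set.image_singleton]
      exact ⟨_, rfl⟩
    · push Not at hX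
      have : A = {Pt.p} := by
        obtain ⟨z, hz⟩ := hA.1
        apply Set.Subset.antisymm
        · intro w hw
          rcases w with _ | a | ⟨t, n⟩
          · rfl
          · exact absurd hw (hX a)
          · exact absurd hw (hD t n)
        · intro w hw
          rw [Set.mem_singleton_iff.1 hw]
          rcases z with _ | a | ⟨t, n⟩
          · exact hz
          · exact absurd hz (hX a)
          · exact absurd hz (hD t n)
      rw [this, Set.image_singleton]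
      exact ⟨_, rfl⟩

end Pool.Agent.Lib.P9fb79a
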