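import Pool.Agent.Lib.P9fb79a.Basic

set_option autoImplicit false

namespace Pool.Agent.Lib.P9fb79a

attribute [local instance] topX

/-- The Smyth power space of the counterexample space. -/
abbrev PS : Type := {K : Set Pt // K.Nonempty ∧ IsCompact K ∧
          ∀ x : Pt, (∀ V : Set Pt, IsOpen V → K ⊆ V → x ∈ V) → x ∈ K}

/-- The upper Vietoris topology. -/
@[reducible] def topPS : TopologicalSpace PS :=
  TopologicalSpace.generateFrom {S | ∃ U : Set Pt, IsOpen U ∧ S = {K | K.1 ⊆ U}}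

attribute [local instance] topPS

theorem isOpen_box {U : Set Pt} (hU : IsOpen U) : IsOpen ({K | K.1 ⊆ U} : Set PS) :=
  TopologicalSpace.isOpen_generateFrom_of_mem ⟨U, hU, rfl⟩

/-- The boxes form a base. -/
theorem exists_box {𝒰 : Set PS} (h𝒰 : IsOpen 𝒰) {K : PS} (hK : K ∈ 𝒰) :
    ∃ U : Set Pt, IsOpen U ∧ K.1 ⊆ U ∧ ∀ L : PS, L.1 ⊆ U → L ∈ 𝒰 := by
  induction h𝒰 with
  | basic S hS =>
    obtain ⟨U, hU, rfl⟩ := hS
    exact ⟨U, hU, hK, fun L hL => hL⟩
  | univ => exact ⟨Set.univ, isOpen_univ, fun _ _ => trivial, fun _ _ => trivial⟩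
  | inter S T _ _ ihS ihT =>
    obtain ⟨U, hU, hKU, h1⟩ := ihS hK.1
    obtain ⟨V, hV, hKV, h2⟩ := ihT hK.2
    exact ⟨U ∩ V, hU.inter hV, fun z hz => ⟨hKU hz, hKV hz⟩,
      fun L hL => ⟨h1 L fun z hz => (hL hz).1, h2 L fun z hz => (hL hz).2⟩⟩
  | sUnion S _ ih =>
    obtain ⟨T, hT, hKT⟩ := hK
    obtain ⟨U, hU, hKU, h1⟩ := ih T hT hKT
    exact ⟨U, hU, hKU, fun L hL => ⟨T, hT, h1 L hL⟩⟩

/-- The crucial irreducible closed subset. -/
def 𝒜 : Set PS := {K | Pt.p ∈ K.1 ∧ ∀ t, ∃ n, Pt.d t n ∈ K.1}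

theorem isClosed_𝒜 : IsClosed 𝒜 := by
  rw [← isOpen_compl_iff]
  have : 𝒜ᶜ = {K : PS | K.1 ⊆ {Pt.p}ᶜ} ∪ ⋃ t, {K : PS | K.1 ⊆ coD t} := by
    ext K
    constructor
    · intro hK
      by_cases hp : Pt.p ∈ K.1
      · right
        have : ¬ ∀ t, ∃ n, Pt.d t n ∈ K.1 := fun h => hK ⟨hp, h⟩
        push Not at this
        obtain ⟨t, ht⟩ := this
        refine Set.mem_iUnion.2 ⟨t, ?_⟩
        intro z hz
        rcases z with _ | a | ⟨s, m⟩
        · exact Or.inl rfl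
        · refine Or.inr (Or.inl ⟨a, ?_, rfl⟩)
          by_contra hlt
          refine ht (a.2 t) (K.2.2.2 _ ?_)
          intro V hV hKV
          exact ((isOpen_iff V).1 hV).1 a t _ (hKV hz) (not_lt.1 hlt) le_rfl
        · refine Or.inr (Or.inr ⟨s, m, ?_, rfl⟩)
          rintro rfl
          exact ht m hz
      · left
        intro z hz h
        rw [Set.mem_singleton_iff.1 h] at hz
        exact hp hz
    · rintro (h | h) ⟨hp, hd⟩
      · exact h hp rfl
      · obtain ⟨t, ht⟩ := Set.mem_iUnion.1 h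
        obtain ⟨n, hn⟩ := hd t
        rcases ht hn with h' | ⟨_, _, h'⟩ | ⟨s, m, hs, h'⟩
        · cases h'
        · cases h'
        · cases h'
          exact hs rfl
  rw [this]
  exact (isOpen_box isOpen_compl_p).union
    (isOpen_iUnion fun t => isOpen_box (isOpen_coD t))

/-- A finitely generated compact saturated set. -/
def fg (a : Gam) (n : ℕ → ℕ) : Set Pt := {Pt.p} ∪ upX a ∪ ⋃ t ∈ Finset.range a.1, upD t (n t)

theorem fg_subset {a : Gam} {n : ℕ → ℕ} {U : Set Pt} (hU : IsOpen U) (hp : Pt.p ∈ U)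
    (ha : Pt.x a ∈ U) (hn : ∀ t, Pt.d t (n t) ∈ U) : fg a n ⊆ U := by
  obtain ⟨h1, h2, _⟩ := (isOpen_iff U).1 hU
  rintro z ((hz | hz | ⟨t, m, ht, hm, rfl⟩) | hz)
  · rw [Set.mem_singleton_iff.1 hz]; exact hp
  · rw [hz]; exact ha
  · exact h1 a t m ha ht hm
  · obtain ⟨t, _, m, hm, rfl⟩ := Set.mem_iUnion₂.1 hz
    exact h2 t _ m (hn t) hm

theorem fg_compact (a : Gam) (n : ℕ → ℕ) : IsCompact (fg a n) := by
  refine (((isCompact_singleton).union ?_).union ?_)
  · refine isCompact_of_finite_subcover ?_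
    intro ι U hU hcov
    obtain ⟨i, hi⟩ := Set.mem_iUnion.1 (hcov (show Pt.x a ∈ upX a from Or.inl rfl))
    refine ⟨{i}, fun z hz => Set.mem_iUnion₂.2 ⟨i, by simp, ?_⟩⟩
    rcases hz with rfl | ⟨t, m, ht, hm, rfl⟩
    · exact hi
    · exact ((isOpen_iff _).1 (hU i)).1 a t m hi ht hm
  · refine Finset.isCompact_biUnion _ fun t _ => ?_
    refine isCompact_of_finite_subcover ?_
    intro ι U hU hcov
    obtain ⟨i, hi⟩ := Set.mem_iUnion.1
      (hcov (show Pt.d t (n t) ∈ upD t (n t) from ⟨_, le_rfl, rfl⟩))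
    refine ⟨{i}, fun z hz => Set.mem_iUnion₂.2 ⟨i, by simp, ?_⟩⟩
    obtain ⟨m, hm, rfl⟩ := hz
    exact ((isOpen_iff _).1 (hU i)).2.1 t _ m hi hm

theorem fg_sat (a : Gam) (n : ℕ → ℕ) (x : Pt)
    (hx : ∀ V : Set Pt, IsOpen V → fg a n ⊆ V → x ∈ V) : x ∈ fg a n := by
  rcases x with _ | b | ⟨t, m⟩
  · exact Or.inl (Or.inl rfl)
  · by_cases hb : b = a
    · rw [hb]; exact Or.inl (Or.inr (Or.inl rfl))
    · exfalso
      refine hx {Pt.x b}ᶜ (isOpen_compl_x b) ?_ rfl
      refine fg_subset (isOpen_compl_x b) (fun h => by cases h) ?_ (fun t h => by cases h)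
      intro h
      cases h
      exact hb rfl
  · by_contra hcon
    -- the complement of the closure of `d t m`
    have hV : IsOpen ({z | ¬ ((∃ b : Gam, b.1 ≤ t ∧ b.2 t ≤ m ∧ z = Pt.x b) ∨
        ∃ l, l ≤ m ∧ z = Pt.d t l)} : Set Pt) := by
      refine (isOpen_iff _).2 ⟨?_, ?_, ?_⟩
      · rintro b s l hb hs hl (⟨_, _, _, h⟩ | ⟨l', hl', h⟩)
        · cases h
        · cases h
          exact hb (Or.inl ⟨b, hs, le_trans hl hl', rfl⟩)
      · rintro s l l' hb hl (⟨_, _, _, h⟩ | ⟨l'', hl', h⟩)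
        · cases h
        · cases h
          exact hb (Or.inr ⟨l, le_trans hl hl', rfl⟩)
      · intro _
        refine ⟨t + 1, fun _ => 0, fun k g hk _ => ?_⟩
        rintro (⟨_, hb, _, h⟩ | ⟨l, _, h⟩)
        · cases h
          simp only at hb
          omega
        · cases h
    refine hx _ hV ?_ (Or.inr ⟨m, le_rfl, rfl⟩)
    rintro z hz (⟨b, hb1, hb2, rfl⟩ | ⟨l, hl, rfl⟩)
    · rcases hz with (hz | hz | ⟨_, _, _, _, hz⟩) | hz
      · cases hz
      · cases hz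
        exact hcon (Or.inl (Or.inr (Or.inr ⟨t, m, hb1, hb2, rfl⟩)))
      · cases hz
      · obtain ⟨_, _, _, _, hz⟩ := Set.mem_iUnion₂.1 hz
        cases hz
    · rcases hz with (hz | hz | ⟨_, _, h1, h2, hz⟩) | hz
      · cases hz
      · cases hz
      · cases hz
        exact hcon (Or.inl (Or.inr (Or.inr ⟨t, m, h1, le_trans h2 hl, rfl⟩)))
      · obtain ⟨s, hs, l', hl', hz⟩ := Set.mem_iUnion₂.1 hz
        cases hz
        exact hcon (Or.inr (Set.mem_iUnion₂.2 ⟨t, hs, m, le_trans hl' hl, rfl⟩))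

/-- The corresponding point of the power space. -/
def FG (a : Gam) (n : ℕ → ℕ) : PS :=
  ⟨fg a n, ⟨Pt.p, Or.inl (Or.inl rfl)⟩, fg_compact a n, fg_sat a n⟩

theorem FG_mem (a : Gam) (n : ℕ → ℕ) : FG a n ∈ 𝒜 := by
  refine ⟨Or.inl (Or.inl rfl), fun t => ?_⟩
  by_cases ht : t < a.1
  · exact ⟨n t, Or.inr (Set.mem_iUnion₂.2 ⟨t, Finset.mem_range.2 ht, n t, le_rfl, rfl⟩)⟩
  · exact ⟨a.2 t, Or.inl (Or.inr (Or.inr ⟨t, _, not_lt.1 ht, le_rfl, rfl⟩))⟩

theorem irred_𝒜 : IsIrreducible 𝒜 := by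
  refine ⟨⟨FG (0, fun _ => 0) (fun _ => 0), FG_mem _ _⟩, ?_⟩
  rintro 𝒰 𝒱 h𝒰 h𝒱 ⟨K, hKA, hKU⟩ ⟨L, hLA, hLV⟩
  obtain ⟨U, hU, hKsub, hU'⟩ := exists_box h𝒰 hKU
  obtain ⟨V, hV, hLsub, hV'⟩ := exists_box h𝒱 hLV
  obtain ⟨_, u2, u3⟩ := (isOpen_iff U).1 hU
  obtain ⟨_, v2, v3⟩ := (isOpen_iff V).1 hV
  obtain ⟨a, ha⟩ := ((u3 (hKsub hKA.1)).inter (v3 (hLsub hLA.1))).nonempty
  choose n hn using hKA.2
  choose m hm using hLA.2
  refine ⟨FG a (fun t => max (n t) (m t)), FG_mem _ _, hU' _ ?_, hV' _ ?_⟩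
  · exact fg_subset hU (hKsub hKA.1) ha.1
      fun t => u2 t _ _ (hKsub (hn t)) (le_max_left _ _)
  · exact fg_subset hV (hLsub hLA.1) ha.2
      fun t => v2 t _ _ (hLsub (hm t)) (le_max_right _ _)

/-- A compact set contains only finitely many points `x a`. -/
theorem finite_x {K : Set Pt} (hK : IsCompact K) : {a | Pt.x a ∈ K}.Finite := by
  classical
  by_contra hinf
  obtain ⟨M', hM'M, hM'inf, hbig⟩ := exists_small hinf
  let W : Finset Gam → Set Pt := fun F => {z | ∀ a, z = Pt.x a → a ∈ M'ᶜ ∪ (F : Set Gam)}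
  have hW : ∀ F, IsOpen (W F) := by
    intro F
    refine (isOpen_iff _).2 ⟨?_, ?_, ?_⟩
    · rintro a t n _ _ _ b h; cases h
    · rintro t n m _ _ b h; cases h
    · intro _
      refine hbig.mono ?_
      intro a ha b hb
      cases hb
      exact Or.inl ha
  have hcov : K ⊆ ⋃ F, W F := by
    intro z _
    rcases z with _ | a | ⟨t, n⟩
    · exact Set.mem_iUnion.2 ⟨∅, fun b h => by cases h⟩
    · refine Set.mem_iUnion.2 ⟨{a}, fun b h => ?_⟩
      cases h
      exact Or.inr (by simp)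
    · exact Set.mem_iUnion.2 ⟨∅, fun b h => by cases h⟩
  obtain ⟨t, ht⟩ := hK.elim_finite_subcover W hW hcov
  apply hM'inf
  refine (Finset.finite_toSet (t.biUnion id)).subset ?_
  intro a ha
  obtain ⟨F, hF, haF⟩ := Set.mem_iUnion₂.1 (ht (hM'M ha))
  rcases haF a rfl with h | h
  · exact absurd ha h
  · simp only [Finset.coe_biUnion, Set.mem_iUnion]
    exact ⟨F, hF, h⟩

/-- Every member of `𝒜` contains some point `x a`. -/
theorem exists_x {K : PS} (hK : K ∈ 𝒜) : ∃ a, Pt.x a ∈ K.1 := by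
  classical
  by_contra hcon
  push Not at hcon
  obtain ⟨hp, hd⟩ := hK
  -- minimal heights
  let n : ℕ → ℕ := fun t => Nat.find (hd t)
  have hn : ∀ t, Pt.d t (n t) ∈ K.1 := fun t => Nat.find_spec (hd t)
  let V : Set Gam := {a | ∀ t, n t + 1 ≤ a.2 t}
  have hV : Big V := ⟨0, fun t => n t + 1, fun k g _ hg t => hg t⟩
  let U : Option ℕ → Set Pt := fun o => match o with
    | none => nb V
    | some t => upD t 0
  have hU : ∀ o, IsOpen (U o) := by
    rintro (_ | t)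
    · exact isOpen_nb hV
    · exact isOpen_upD t 0
  have hcov : K.1 ⊆ ⋃ o, U o := by
    intro z hz
    rcases z with _ | a | ⟨t, m⟩
    · exact Set.mem_iUnion.2 ⟨none, Or.inl rfl⟩
    · exact absurd hz (hcon a)
    · exact Set.mem_iUnion.2 ⟨some t, m, Nat.zero_le _, rfl⟩
  obtain ⟨s, hs⟩ := K.2.2.1.elim_finite_subcover U hU hcov
  obtain ⟨t, ht⟩ : ∃ t : ℕ, some t ∉ s := by
    by_contra hall
    push Not at hall
    refine Set.infinite_univ (α := ℕ) ?_
    refine Set.Finite.subset ((Finset.finite_toSet s).preimage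
      (Set.injOn_of_injective (Option.some_injective ℕ))) ?_
    intro t _
    exact hall t
  obtain ⟨o, ho, h⟩ := Set.mem_iUnion₂.1 (hs (hn t))
  rcases o with _ | t'
  · rcases h with h | ⟨_, _, h⟩ | ⟨a, ha, t'', m, h1, h2, h⟩
    · cases h
    · cases h
    · cases h
      have := ha t
      omega
  · obtain ⟨_, _, h⟩ := h
    cases h
    exact ht ho

open Classical in
/-- The map into the test space. -/
noncomputable def phi (K : PS) : Finset Gam :=
  if K ∈ 𝒜 then (finite_x K.2.2.1).toFinset else ∅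

theorem phi_of_mem {K : PS} (hK : K ∈ 𝒜) : phi K = (finite_x K.2.2.1).toFinset := if_pos hK

theorem phi_of_notMem {K : PS} (hK : K ∉ 𝒜) : phi K = ∅ := if_neg hK

theorem phi_nonempty {K : PS} (hK : K ∈ 𝒜) : (phi K).Nonempty := by
  rw [phi_of_mem hK]
  obtain ⟨a, ha⟩ := exists_x hK
  exact ⟨a, (Set.Finite.mem_toFinset _).2 ha⟩

theorem continuous_phi : @Continuous _ _ topPS topY phi := by
  let _ := topY
  refine continuous_def.2 fun 𝒱 h𝒱 => ?_
  rw [isOpen_iff_mem_nhds]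
  intro K hK
  by_cases hKA : K ∈ 𝒜
  · obtain ⟨V, hV, hKV, hV'⟩ := h𝒱 _ hK (phi_nonempty hKA)
    -- the open set
    have hUo : IsOpen ({z | ∀ a, z = Pt.x a → a ∈ V} : Set Pt) := by
      refine (isOpen_iff _).2 ⟨?_, ?_, ?_⟩
      · rintro a t n _ _ _ b h; cases h
      · rintro t n m _ _ b h; cases h
      · intro _
        refine hV.mono ?_
        intro a ha b hb
        cases hb
        exact ha
    refine Filter.mem_of_superset ((isOpen_box hUo).mem_nhds ?_) ?_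
    · intro z hz a hza
      rw [hza] at hz
      apply hKV
      rw [phi_of_mem hKA]
      exact (Set.Finite.mem_toFinset _).2 hz
    · intro L hL
      by_cases hLA : L ∈ 𝒜
      · refine hV' _ ?_
        intro a ha
        rw [phi_of_mem hLA] at ha
        have ha' : Pt.x a ∈ L.1 := by simpa using ha
        exact hL ha' a rfl
      · show phi L ∈ 𝒱
        rw [phi_of_notMem hLA]
        exact hV' _ (fun a ha => by simp at ha)
  · refine Filter.mem_of_superset (isClosed_𝒜.isOpen_compl.mem_nhds hKA) ?_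
    intro L hL
    have h1 : phi K ∈ 𝒱 := hK
    rw [phi_of_notMem hKA] at h1
    show phi L ∈ 𝒱
    rwa [phi_of_notMem hL]

theorem phi_FG (a : Gam) (n : ℕ → ℕ) : phi (FG a n) = {a} := by
  rw [phi_of_mem (FG_mem a n)]
  ext b
  rw [Set.Finite.mem_toFinset, Finset.mem_singleton]
  constructor
  · rintro ((h | h | ⟨_, _, _, _, h⟩) | h)
    · cases h
    · cases h; rfl
    · cases h
    · obtain ⟨_, _, _, _, h⟩ := Set.mem_iUnion₂.1 h
      cases h
  · rintro rfl
    exact Or.inl (Or.inr (Or.inl rfl))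

/-- The image of `𝒜` in the test space is not dense in a point closure. -/
theorem no_point : ¬ ∃ G : Finset Gam, @closure _ topY (phi '' 𝒜) = @closure _ topY {G} := by
  let _ := topY
  rintro ⟨G, hG⟩
  have hne : G.Nonempty := by
    have h1 : G ∈ closure (phi '' 𝒜) := by rw [hG]; exact subset_closure rfl
    by_contra hemp
    rw [Finset.not_nonempty_iff_eq_empty] at hemp
    obtain ⟨G', hG', K, hK, hKG⟩ := mem_closure_iff.1 h1 _ isOpen_empty hemp
    rw [Set.mem_singleton_iff.1 hG'] at hKG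
    have := phi_nonempty hK
    rw [hKG] at this
    simp at this
  obtain ⟨b, hb⟩ := hne
  -- pick `a ≠ b`
  obtain ⟨a, hab⟩ : ∃ a : Gam, a ≠ b := ⟨(b.1 + 1, b.2), fun h => by
    have := congrArg Prod.fst h
    simp at this⟩
  have h1 : ({a} : Finset Gam) ∈ closure ({G} : Set (Finset Gam)) := by
    rw [← hG]
    exact subset_closure ⟨FG a (fun _ => 0), FG_mem _ _, phi_FG _ _⟩
  obtain ⟨G', hG', hG''⟩ := mem_closure_iff.1 h1 _ (isOpen_boxY (big_compl_singleton b))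
    (by
      intro c hc h
      rw [Finset.mem_singleton] at hc
      rw [hc] at h
      exact hab h)
  rw [Set.mem_singleton_iff.1 hG''] at hG'
  exact hG' b hb rfl

end Pool.Agent.Lib.P9fb79a
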