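import Pool.Agent.Lib.P9fb79a.Power

set_option autoImplicit false

/-! Universe polymorphic version of the counterexample, with literal definitions. -/

namespace Pool.Agent.Lib.P9fb79a.Univ

universe u v

/-- The specialization order: `x ≤ y` iff `x` lies in the closure of `{y}`. -/
def SpecLE {X : Type u} [TopologicalSpace X] (x y : X) : Prop := x ∈ closure ({y} : Set X)

/-- Saturated sets: upper sets for the specialization order. -/
def Saturated {X : Type u} [TopologicalSpace X] (K : Set X) : Prop :=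
  ∀ x ∈ K, ∀ y : X, SpecLE x y → y ∈ K

/-- The set `K(X)` of nonempty compact saturated subsets. -/
def Smyth (X : Type u) [TopologicalSpace X] : Type u :=
  {K : Set X // K.Nonempty ∧ IsCompact K ∧ Saturated K}

/-- The upper Vietoris topology on `K(X)`, generated by the sets `□U = {K | K ⊆ U}` with `U` open
(they are closed under finite intersections, so they form a base). -/
instance smythTopology (X : Type u) [TopologicalSpace X] : TopologicalSpace (Smyth X) :=
  TopologicalSpace.generateFrom {S | ∃ U : Set X, IsOpen U ∧ S = {K : Smyth X | K.1 ⊆ U}}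

/-- Well-filtered spaces (all spaces are `T0`). -/
def WellFiltered (Y : Type u) [TopologicalSpace Y] : Prop :=
  T0Space Y ∧ ∀ (𝒦 : Set (Set Y)) (U : Set Y),
    (∀ K ∈ 𝒦, K.Nonempty ∧ IsCompact K ∧ Saturated K) → 𝒦.Nonempty →
    (∀ K₁ ∈ 𝒦, ∀ K₂ ∈ 𝒦, ∃ K₃ ∈ 𝒦, K₃ ⊆ K₁ ∧ K₃ ⊆ K₂) →
    IsOpen U → ⋂₀ 𝒦 ⊆ U → ∃ K ∈ 𝒦, K ⊆ U

/-- `WD` sets, tested against all well-filtered spaces in the universe `v`. -/
def IsWDSet {X : Type u} [TopologicalSpace X] (A : Set X) : Prop :=
  ∀ (Y : Type v) [TopologicalSpace Y], WellFiltered Y → ∀ f : X → Y, Continuous f →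
    ∃! y : Y, closure (f '' A) = closure {y}

/-- Well-filtered determined spaces, tested against all well-filtered spaces in the universe `v`. -/
def WellFilteredDetermined (X : Type u) [TopologicalSpace X] : Prop :=
  ∀ A : Set X, IsClosed A → IsIrreducible A → IsWDSet.{u, v} A

/-! ### Two descriptions of saturated sets -/

theorem saturated_iff {X : Type u} [TopologicalSpace X] (K : Set X) :
    Saturated K ↔ ∀ x : X, (∀ V : Set X, IsOpen V → K ⊆ V → x ∈ V) → x ∈ K := by
  constructor
  · intro h x hx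
    by_contra hxK
    have h1 : K ⊆ (closure ({x} : Set X))ᶜ := by
      intro k hk hkx
      exact hxK (h k hk x hkx)
    exact hx _ isClosed_closure.isOpen_compl h1 (subset_closure rfl)
  · intro h x hx y hxy
    apply h y
    intro V hV hKV
    obtain ⟨z, hz, hz'⟩ := mem_closure_iff.1 hxy V hV (hKV hx)
    rwa [Set.mem_singleton_iff.1 hz'] at hz

/-! ### Universe polymorphic facts about well-filtered spaces -/

theorem closure_image_of_dense {Z : Type u} {Y : Type v} [TopologicalSpace Z] [TopologicalSpace Y]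
    {f : Z → Y} (hf : Continuous f) {A B : Set Z} (hBA : B ⊆ A) (hAB : A ⊆ closure B) :
    closure (f '' A) = closure (f '' B) := by
  apply Set.Subset.antisymm
  · refine closure_minimal ?_ isClosed_closure
    exact (Set.image_mono hAB).trans (image_closure_subset_closure_image hf)
  · exact closure_mono (Set.image_mono hBA)

theorem WellFiltered.directed {Y : Type v} [TopologicalSpace Y] (h : WellFiltered Y) {C : Set Y}
    (hne : C.Nonempty)
    (hdir : ∀ a ∈ C, ∀ b ∈ C, ∃ c ∈ C, a ∈ closure {c} ∧ b ∈ closure {c}) :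
    ∃ y : Y, closure C = closure {y} := by
  obtain ⟨_, hwf⟩ := h
  by_contra hcon
  push Not at hcon
  have hK : ∀ c : Y, ({z | c ∈ closure {z}} : Set Y).Nonempty ∧ IsCompact {z | c ∈ closure {z}} ∧
      Saturated {z | c ∈ closure {z}} := by
    intro c
    have hsub : ∀ V : Set Y, IsOpen V → c ∈ V → {z | c ∈ closure {z}} ⊆ V := by
      intro V hV hc z hz
      obtain ⟨w, hw, hw'⟩ := mem_closure_iff.1 hz V hV hc
      rwa [Set.mem_singleton_iff.1 hw'] at hw
    refine ⟨⟨c, subset_closure rfl⟩, ?_, ?_⟩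
    · refine isCompact_of_finite_subcover ?_
      intro ι U hU hcov
      obtain ⟨i, hi⟩ := Set.mem_iUnion.1 (hcov (show c ∈ closure {c} from subset_closure rfl))
      exact ⟨{i}, fun z hz => Set.mem_iUnion₂.2 ⟨i, by simp, hsub _ (hU i) hi hz⟩⟩
    · intro x hx y hxy
      exact closure_minimal (Set.singleton_subset_iff.2 hxy) isClosed_closure hx
  obtain ⟨K, ⟨c, hc, rfl⟩, hKU⟩ := hwf
    ((fun c => {z | c ∈ closure {z}}) '' C) (closure C)ᶜ
    (by rintro _ ⟨c, _, rfl⟩; exact hK c)
    (hne.image _)
    (by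
      rintro _ ⟨a, ha, rfl⟩ _ ⟨b, hb, rfl⟩
      obtain ⟨c, hc, hac, hbc⟩ := hdir a ha b hb
      refine ⟨_, ⟨c, hc, rfl⟩, fun z hz => ?_, fun z hz => ?_⟩
      · have : closure {c} ⊆ closure {z} :=
          closure_minimal (Set.singleton_subset_iff.2 hz) isClosed_closure
        exact this hac
      · have : closure {c} ⊆ closure {z} :=
          closure_minimal (Set.singleton_subset_iff.2 hz) isClosed_closure
        exact this hbc)
    isClosed_closure.isOpen_compl
    (by
      intro y hy hyC
      apply hcon y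
      apply Set.Subset.antisymm
      · refine closure_minimal ?_ isClosed_closure
        intro c hc
        exact Set.mem_sInter.1 hy _ ⟨c, hc, rfl⟩
      · exact closure_minimal (Set.singleton_subset_iff.2 hyC) isClosed_closure)
  exact hKU (show c ∈ closure {c} from subset_closure rfl) (subset_closure hc)

theorem uniq {Y : Type v} [TopologicalSpace Y] [T0Space Y] {S : Set Y}
    (h : ∃ y : Y, closure S = closure {y}) : ∃! y : Y, closure S = closure {y} := by
  obtain ⟨y, hy⟩ := h
  refine ⟨y, hy, fun z hz => ?_⟩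
  have h1 : closure ({z} : Set Y) = closure {y} := by rw [← hz, ← hy]
  exact (inseparable_iff_closure_eq.2 h1).eq

attribute [local instance] topX

/-- The counterexample space is well-filtered determined, in every universe. -/
theorem wfdX {A : Set Pt} (hA : IsIrreducible A) (Y : Type v) [TopologicalSpace Y]
    (f : Pt → Y) (hY : WellFiltered Y) (hf : Continuous f) :
    ∃ y : Y, closure (f '' A) = closure {y} := by
  by_cases hD : ∃ t n, Pt.d t n ∈ A
  · obtain ⟨t, n, htn⟩ := hD
    have hne : (A ∩ upD t 0).Nonempty := ⟨_, htn, n, Nat.zero_le _, rfl⟩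
    rw [closure_image_of_dense hf Set.inter_subset_left
      (subset_closure_inter hA (isOpen_upD t 0) hne)]
    apply hY.directed (hne.image f)
    have hle : ∀ n m, n ≤ m → f (Pt.d t n) ∈ closure {f (Pt.d t m)} := by
      intro n m hnm
      have h1 : Pt.d t n ∈ closure {Pt.d t m} :=
        mem_closure_iff.2 fun V hV hn => ⟨_, ((isOpen_iff V).1 hV).2.1 t n m hn hnm, rfl⟩
      have h2 := image_closure_subset_closure_image hf ⟨_, h1, rfl⟩
      rwa [Set.image_singleton] at h2
    rintro _ ⟨_, ⟨hA1, n1, _, rfl⟩, rfl⟩ _ ⟨_, ⟨hA2, n2, _, rfl⟩, rfl⟩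
    rcases le_total n1 n2 with h | h
    · exact ⟨_, ⟨_, ⟨hA2, n2, Nat.zero_le _, rfl⟩, rfl⟩, hle _ _ h, subset_closure rfl⟩
    · exact ⟨_, ⟨_, ⟨hA1, n1, Nat.zero_le _, rfl⟩, rfl⟩, subset_closure rfl, hle _ _ h⟩
  · push Not at hD
    by_cases hX : ∃ a, Pt.x a ∈ A
    · obtain ⟨a, ha⟩ := hX
      have hint : A ∩ upX a = {Pt.x a} := by
        ext z
        constructor
        · rintro ⟨hzA, h | ⟨t, m, _, _, h⟩⟩
          · exact h
          · rw [h] at hzA
            exact absurd hzA (hD t m)
        · intro h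
          rw [Set.mem_singleton_iff.1 h]
          exact ⟨ha, Or.inl rfl⟩
      have hne : (A ∩ upX a).Nonempty := by rw [hint]; exact ⟨_, rfl⟩
      rw [closure_image_of_dense hf Set.inter_subset_left
        (subset_closure_inter hA (isOpen_upX a) hne), hint, Set.image_singleton]
      exact ⟨_, rfl⟩
    · push Not at hX
      have : A = {Pt.p} := by
        obtain ⟨z, hz⟩ := hA.1
        apply Set.Subset.antisymm
        · intro w hw
          rcases w with _ | a | ⟨t, n⟩
          · rfl
          · exact absurd hw (hX a)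
          · exact absurd hw (hD t n)
        · intro w hw
          rw [Set.mem_singleton_iff.1 hw]
          rcases z with _ | a | ⟨t, n⟩
          · exact hz
          · exact absurd hz (hX a)
          · exact absurd hz (hD t n)
      rw [this, Set.image_singleton]
      exact ⟨_, rfl⟩

/-! ### Transport of the power space -/

/-- The identity between the two descriptions of the power space. -/
def toPS (K : Smyth Pt) : PS := ⟨K.1, K.2.1, K.2.2.1, (saturated_iff K.1).1 K.2.2.2⟩

/-- The inverse. -/
def ofPS (K : PS) : Smyth Pt := ⟨K.1, K.2.1, K.2.2.1, (saturated_iff K.1).2 K.2.2.2⟩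

attribute [local instance] topPS

theorem continuous_toPS : Continuous toPS := by
  refine continuous_generateFrom_iff.2 ?_
  rintro _ ⟨U, hU, rfl⟩
  exact TopologicalSpace.isOpen_generateFrom_of_mem ⟨U, hU, rfl⟩

theorem continuous_ofPS : Continuous ofPS := by
  refine continuous_generateFrom_iff.2 ?_
  rintro _ ⟨U, hU, rfl⟩
  exact TopologicalSpace.isOpen_generateFrom_of_mem ⟨U, hU, rfl⟩

theorem ofPS_toPS (K : Smyth Pt) : ofPS (toPS K) = K := rfl

theorem toPS_ofPS (K : PS) : toPS (ofPS K) = K := rfl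

/-- The irreducible closed set. -/
def setA : Set (Smyth Pt) := toPS ⁻¹' 𝒜

theorem closed_setA : IsClosed setA := isClosed_𝒜.preimage continuous_toPS

theorem setA_eq : setA = ofPS '' 𝒜 := by
  ext K
  constructor
  · intro h
    exact ⟨toPS K, h, rfl⟩
  · rintro ⟨L, hL, rfl⟩
    exact hL

theorem irred_setA : IsIrreducible setA := by
  rw [setA_eq]
  exact irred_𝒜.image ofPS continuous_ofPS.continuousOn

theorem t0Smyth (X : Type u) [TopologicalSpace X] : T0Space (Smyth X) := by
  refine ⟨fun K L h => ?_⟩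
  have key : ∀ K L : Smyth X, Inseparable K L → L.1 ⊆ K.1 := by
    intro K L h x hx
    refine (saturated_iff K.1).1 K.2.2.2 x ?_
    intro V hV hKV
    have ho : IsOpen ({M : Smyth X | M.1 ⊆ V} : Set (Smyth X)) :=
      TopologicalSpace.isOpen_generateFrom_of_mem ⟨V, hV, rfl⟩
    exact (h.mem_open_iff ho).1 hKV hx
  exact Subtype.ext (Set.Subset.antisymm (key L K h.symm) (key K L h))

theorem wellFiltered_test : @WellFiltered (Finset Gam) topY := by
  let _ := topY
  refine ⟨wfY.1, ?_⟩
  intro 𝒦 U h𝒦 hne hfil hU hsub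
  refine wfY.2 𝒦 U (fun K hK => ⟨(h𝒦 K hK).2.1, (saturated_iff K).1 (h𝒦 K hK).2.2⟩) hne ?_ hU hsub
  intro K₁ h1 K₂ h2
  obtain ⟨K₃, h3, ha, hb⟩ := hfil K₁ h1 K₂ h2
  exact ⟨K₃, h3, Set.subset_inter ha hb⟩

theorem main : ∃ (X : Type) (_ : TopologicalSpace X), T0Space X ∧ WellFilteredDetermined.{0, v} X ∧
    T0Space (Smyth X) ∧ ∃ A : Set (Smyth X), IsClosed A ∧ IsIrreducible A ∧
      ∃ (Y : Type) (_ : TopologicalSpace Y) (f : Smyth X → Y), WellFiltered Y ∧ Continuous f ∧
        ¬ ∃ y : Y, closure (f '' A) = closure {y} := by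
  refine ⟨Pt, topX, t0X, ?_, t0Smyth Pt, setA, closed_setA, irred_setA,
    Finset Gam, topY, fun K => phi (toPS K), wellFiltered_test, ?_, ?_⟩
  · intro A _ hA Y _ hY f hf
    have := hY.1
    exact uniq (wfdX hA Y f hY hf)
  · let _ := topY
    exact continuous_phi.comp continuous_toPS
  · have h : (fun K => phi (toPS K)) '' setA = phi '' 𝒜 := by
      ext G
      constructor
      · rintro ⟨K, hK, rfl⟩
        exact ⟨toPS K, hK, rfl⟩
      · rintro ⟨K, hK, rfl⟩
        exact ⟨ofPS K, hK, rfl⟩
    rw [h]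
    exact no_point

end Pool.Agent.Lib.P9fb79a.Univ
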